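import Pool.Agent.Helper30K1.DS.ALL

set_option autoImplicit false

/-!
# Discrete moments of the zeta function with fixed generic dilations: zeros, primes, arbitrary sequences

There is `δ > 0` such that for every `k ≥ 1`, every sequence of positive points `x_i` with `y^o(1)` points in
`[y, y+1]` and all weights `F_i` with `∑_{x_i ≤ T} |F_i|² ≤ T^(1+o(1))`,

`∑_{x_i ≤ T} F_i ∏_{j ≤ k} |ζ(1/2 + i λ_j x_i)|² = ∑_{x_i ≤ T} F_i ∏_{j ≤ k} (log (λ_j x_i / 2π) + 2γ) + O(T^(1-δ))`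

for all `T ≥ 1`, for all positive `λ` outside a set of Hausdorff dimension at most `s(k) < k`. In particular the
eighth moment (`k = 4`) over the ordinates of the zeros of zeta (`zeros`) and over the primes (`primes`).

Proof: the Mellin transform of `|ζ(1/2+iu)|²` minus its mean density, with a smooth weight at scale `T`, is
`O(T^(-δ))` uniformly in the frequency (project GD) and `O(T^(1+ε) / |τ|)` for large frequencies (mean square
of `ζ'`); Plancherel's theorem in the dilation and the mean value theorem for the Dirichlet polynomials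
`∑ F_i x_i^(iτ)` give the mean square over one dilation; telescoping, the fourth moment of zeta, and a covering
argument.
-/

namespace Pool.Agent.Results.MP_56b8f5_nt.DiscreteDilations

open Finset

/-- positive points, `y^o(1)` of them in `[y, y + 1]` -/
def Sequence {ι : Type} (x : ι → ℝ) : Prop := (∀ i, 0 < x i) ∧ ∀ ε : ℝ, 0 < ε → ∃ C : ℝ, 0 < C ∧
  ∀ y : ℝ, 0 ≤ y → ∀ S : Finset ι, (∀ i ∈ S, y ≤ x i ∧ x i ≤ y + 1) → (S.card : ℝ) ≤ C * (1 + y) ^ ε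

/-- weights whose mean square up to `T` is at most `T^o(1)` -/
def Weights {ι : Type} (x : ι → ℝ) (F : ι → ℂ) : Prop := ∀ ε : ℝ, 0 < ε → ∃ C : ℝ, 0 < C ∧
  ∀ T : ℝ, 1 ≤ T → ∀ S : Finset ι, (∀ i ∈ S, x i ≤ T) → ∑ i ∈ S, ‖F i‖ ^ 2 ≤ C * T ^ (1 + ε)

/-- the mean density of `|ζ(1/2+iu)|²` -/
noncomputable def density (u : ℝ) : ℝ := Real.log (u / (2 * Real.pi)) + 2 * Real.eulerMascheroniConstant

/-- `|ζ(1/2+iu)|²` -/
noncomputable def zetaSq (u : ℝ) : ℝ := ‖riemannZeta (1 / 2 + Complex.I * u)‖ ^ 2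

open Pool.Agent.Helper30K1.DS in
/-- **Discrete moments of zeta with generic dilations.** -/
theorem result : ∃ δ : ℝ, 0 < δ ∧ δ < 1 ∧ ∀ k : ℕ, 0 < k → ∃ s : ℝ, 0 < s ∧ s < k ∧
    ∀ (ι : Type) (x : ι → ℝ) (F : ι → ℂ), Sequence x → Weights x F →
    ∃ E : Set (Fin k → ℝ), dimH E ≤ ENNReal.ofReal s ∧
    ∀ l : Fin k → ℝ, l ∉ E → (∀ j, 0 < l j) → ∃ C : ℝ, ∀ T : ℝ, 1 ≤ T →
    ∀ S : Finset ι, (∀ i, i ∈ S ↔ x i ≤ T) →
      ‖∑ i ∈ S, F i * ((∏ j, zetaSq (l j * x i) : ℝ) : ℂ) -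
        ∑ i ∈ S, F i * ((∏ j, density (l j * x i) : ℝ) : ℂ)‖ ≤ C * T ^ (1 - δ) := by
  obtain ⟨δ, h0, h1, h⟩ := a_FIN
  refine ⟨δ, h0, h1, fun k hk => ?_⟩
  obtain ⟨s, hs0, hs, hF⟩ := h k hk
  refine ⟨s, hs0, hs, fun ι x F hx hG => ?_⟩
  obtain ⟨E, hE, hl⟩ := hF ι x F hx hG
  refine ⟨E, hE, fun l hlE hl0 => ?_⟩
  obtain ⟨C, hC⟩ := hl l hlE hl0
  refine ⟨C, fun T hT S hS => le_trans (le_of_eq ?_) (hC T hT)⟩
  have hSS : S = fs x 0 T := by
    ext i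
    rw [hS, Sq.mem hx]
    exact ⟨fun h => ⟨hx.1 i, h⟩, fun h => h.2⟩
  rw [hSS, ← sum_sub_distrib]
  congr 1
  refine sum_congr rfl fun i _ => ?_
  show _ = F i * (((∏ j, zetaSq (l j * x i) - ∏ j, density (l j * x i) : ℝ)) : ℂ)
  push_cast
  ring

/-- a multiplicity -/
noncomputable def mult (s : ℂ) : ℕ := analyticOrderNatAt riemannZeta s

open Pool.Agent.Helper30K1.DS in
/-- the eighth moment over the zeros -/
theorem zeros : ∃ δ : ℝ, 0 < δ ∧ ∃ E : Set (Fin 4 → ℝ), dimH E < 4 ∧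
    ∀ l : Fin 4 → ℝ, l ∉ E → (∀ j, 0 < l j) → ∃ C : ℝ, ∀ T : ℝ, 1 ≤ T → ∀ S : Finset ℂ,
      (∀ s, s ∈ S ↔ 0 < s.re ∧ s.re < 1 ∧ 0 < s.im ∧ s.im ≤ T ∧ riemannZeta s = 0) →
      |∑ s ∈ S, mult s * ∏ j, zetaSq (l j * s.im) - ∑ s ∈ S, mult s * ∏ j, density (l j * s.im)| ≤
        C * T ^ (1 - δ) := by
  classical
  obtain ⟨δ, h0, h1, h⟩ := result
  obtain ⟨s, hs0, hs, hF⟩ := h 4 (by norm_num)
  obtain ⟨E, hE, hl⟩ := hF Zer (fun i => i.1.im) (fun i => ((H370.mult riemannZeta i.1 : ℕ) : ℂ)) sq_zer gr_zer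
  refine ⟨δ, h0, E, lt_of_le_of_lt hE ?_, fun l hlE hl0 => ?_⟩
  · have : ENNReal.ofReal s < ENNReal.ofReal 4 := (ENNReal.ofReal_lt_ofReal_iff (by norm_num)).2 (by exact_mod_cast hs)
    simpa using this
  · obtain ⟨C, hC⟩ := hl l hlE hl0
    refine ⟨C, fun T hT S hS => ?_⟩
    have hinj : Function.Injective (fun i : Zer => i.1) := Subtype.val_injective
    have hS' := hC T hT (S.preimage (fun i : Zer => i.1) hinj.injOn) fun i => by
      rw [mem_preimage, hS]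
      exact ⟨fun h => h.2.2.2.1, fun h => ⟨i.2.1, i.2.2.1, i.2.2.2.1, h, i.2.2.2.2⟩⟩
    refine le_trans (le_of_eq ?_) hS'
    have key : ∀ f : ℂ → ℝ, ∑ i ∈ S.preimage (fun i : Zer => i.1) hinj.injOn,
        ((H370.mult riemannZeta i.1 : ℕ) : ℂ) * ((f i.1 : ℝ) : ℂ) = ((∑ s ∈ S, mult s * f s : ℝ) : ℂ) := by
      intro f
      push_cast
      have e := Finset.sum_preimage (fun i : Zer => i.1) S hinj.injOn
        (fun s => ((mult s : ℕ) : ℂ) * ((f s : ℝ) : ℂ)) (fun s hs hs' => by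
          exfalso
          rw [hS] at hs
          exact hs' ⟨⟨s, hs.1, hs.2.1, hs.2.2.1, hs.2.2.2.2⟩, rfl⟩)
      rw [← e]
      rfl
    rw [key (fun s => ∏ j, zetaSq (l j * s.im)), key (fun s => ∏ j, density (l j * s.im)), ← Complex.ofReal_sub,
      Complex.norm_real, Real.norm_eq_abs]

open Pool.Agent.Helper30K1.DS in
/-- the eighth moment over the primes -/
theorem primes : ∃ δ : ℝ, 0 < δ ∧ ∃ E : Set (Fin 4 → ℝ), dimH E < 4 ∧
    ∀ l : Fin 4 → ℝ, l ∉ E → (∀ j, 0 < l j) → ∃ C : ℝ, ∀ N : ℕ, 1 ≤ N →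
      |∑ p ∈ (Icc 1 N).filter Nat.Prime, ∏ j, zetaSq (l j * p) -
        ∑ p ∈ (Icc 1 N).filter Nat.Prime, ∏ j, density (l j * p)| ≤ C * (N : ℝ) ^ (1 - δ) := by
  classical
  obtain ⟨δ, h0, h1, h⟩ := result
  obtain ⟨s, hs0, hs, hF⟩ := h 4 (by norm_num)
  have hinj : Function.Injective (fun i : {p : ℕ // p.Prime} => i.1) := Subtype.val_injective
  have hsq : Sq (fun i : {p : ℕ // p.Prime} => (i.1 : ℝ)) := by
    refine ⟨fun i => Nat.cast_pos.2 i.2.pos, fun ε hε => ?_⟩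
    obtain ⟨C, hC, hb⟩ := sq_nat.2 ε hε
    refine ⟨C, hC, fun y hy S hS => ?_⟩
    have := hb y hy (S.image fun i => i.1 - 1) (fun n hn => by
      rw [mem_image] at hn
      obtain ⟨i, hi, rfl⟩ := hn
      have h1 : 1 ≤ i.1 := i.2.pos
      have e : ((i.1 - 1 : ℕ) : ℝ) + 1 = i.1 := by
        rw [Nat.cast_sub h1]
        push_cast
        ring
      show y ≤ ((i.1 - 1 : ℕ) : ℝ) + 1 ∧ ((i.1 - 1 : ℕ) : ℝ) + 1 ≤ y + 1
      rw [e]
      exact hS i hi)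
    rwa [card_image_of_injective] at this
    intro a b hab
    have h1 : 1 ≤ a.1 := a.2.pos
    have h2 : 1 ≤ b.1 := b.2.pos
    apply Subtype.ext
    have : a.1 - 1 = b.1 - 1 := hab
    omega
  obtain ⟨E, hE, hl⟩ := hF {p : ℕ // p.Prime} (fun i => (i.1 : ℝ)) (fun _ => 1) hsq (gr_one hsq)
  refine ⟨δ, h0, E, lt_of_le_of_lt hE ?_, fun l hlE hl0 => ?_⟩
  · have : ENNReal.ofReal s < ENNReal.ofReal 4 := (ENNReal.ofReal_lt_ofReal_iff (by norm_num)).2 (by exact_mod_cast hs)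
    simpa using this
  · obtain ⟨C, hC⟩ := hl l hlE hl0
    refine ⟨C, fun N hN => ?_⟩
    have hS' := hC N (by exact_mod_cast hN) ((Icc 1 N).preimage (fun i : {p : ℕ // p.Prime} => i.1) hinj.injOn)
      fun i => by
        rw [mem_preimage, mem_Icc]
        exact ⟨fun h => by exact_mod_cast h.2, fun h => ⟨i.2.pos, by exact_mod_cast h⟩⟩
    refine le_trans (le_of_eq ?_) hS'
    have key : ∀ f : ℕ → ℝ, ∑ i ∈ (Icc 1 N).preimage (fun i : {p : ℕ // p.Prime} => i.1) hinj.injOn,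
        (1 : ℂ) * ((f i.1 : ℝ) : ℂ) = ((∑ p ∈ (Icc 1 N).filter Nat.Prime, f p : ℝ) : ℂ) := by
      intro f
      push_cast
      rw [sum_filter]
      have e := Finset.sum_preimage (fun i : {p : ℕ // p.Prime} => i.1) (Icc 1 N) hinj.injOn
        (fun p => if p.Prime then ((f p : ℝ) : ℂ) else 0) (fun p hp hp' => by
          rw [if_neg]
          intro h
          exact hp' ⟨⟨p, h⟩, rfl⟩)
      rw [← e]
      refine sum_congr rfl fun i _ => ?_
      rw [if_pos i.2, one_mul]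
    rw [key (fun p => ∏ j, zetaSq (l j * p)), key (fun p => ∏ j, density (l j * p)), ← Complex.ofReal_sub,
      Complex.norm_real, Real.norm_eq_abs]

end Pool.Agent.Results.MP_56b8f5_nt.DiscreteDilations
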