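import Pool.Agent.Helper25.ZM.SXAll

set_option autoImplicit false

/-! Moments of zeta with a fourth power and arbitrary further shifts (the eighth moment for two shifts). -/

namespace Pool.Agent.Results.MP_56b8f5_nt.FourthPowerShifts

open Complex MeasureTheory Set Filter

noncomputable section

/-- `∫_0^T |ζ(1/2+it)|⁴ ∏_j |ζ(1/2+i(t+c_j))|² dt` -/
def moment {n : ℕ} (T : ℝ) (c : Fin n → ℝ) : ℝ :=
  ∫ t in (0:ℝ)..T, ‖riemannZeta (1 / 2 + I * t)‖ ^ 4 * ∏ j, ‖riemannZeta (1 / 2 + I * (t + c j))‖ ^ 2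

/-- the local factor
`(1 - 1/p)^(n+4) ∫_0^1 |1 - e(θ) p^(-1/2)|^(-4) ∏_j |1 - e(θ) p^(-1/2-i c_j)|^(-2) dθ` -/
def loc {n : ℕ} (c : Fin n → ℝ) (p : ℕ) : ℝ :=
  (1 - 1 / (p : ℝ)) ^ (n + 4) * ∫ θ in (0:ℝ)..1,
    1 / (‖1 - cexp (2 * Real.pi * I * θ) * (p : ℂ) ^ (-(1 / 2) : ℂ)‖ ^ 4 *
      ∏ j, ‖1 - cexp (2 * Real.pi * I * θ) * (p : ℂ) ^ (-(1 / 2 + I * c j))‖ ^ 2)

/-- `∏_j |ζ(1+i c_j)|⁴ ∏_{i<j} |ζ(1+i(c_i-c_j))|²` -/
def zetas {n : ℕ} (c : Fin n → ℝ) : ℝ :=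
  (∏ j, ‖riemannZeta (1 + I * c j)‖ ^ 4) *
    ∏ i, ∏ j ∈ Finset.Ioi i, ‖riemannZeta (1 + I * (c i - c j))‖ ^ 2

/-- the inverse of the Euler factor of `zetas c` at `p` -/
def inv {n : ℕ} (c : Fin n → ℝ) (p : ℕ) : ℝ :=
  (∏ j, ‖1 - (p : ℂ) ^ (-(1 + I * c j))‖ ^ 4) *
    ∏ i, ∏ j ∈ Finset.Ioi i, ‖1 - (p : ℂ) ^ (-(1 + I * (c i - c j)))‖ ^ 2

/-- the arithmetic factor `∏_p loc c p * inv c p` -/
def arith {n : ℕ} (c : Fin n → ℝ) : ℝ := ∏' p : Nat.Primes, loc c p * inv c p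

/-- For every `n` and `ε > 0` and all sufficiently large `T`, all `c ∈ [0,T]^n` outside a set of measure at most
`ε T^n` satisfy `∫_0^T |ζ(1/2+it)|⁴ ∏_j |ζ(1/2+i(t+c_j))|² dt = 1/12 * zetas c * arith c * T (log T)^(n+4)` up to a
factor in `[1-ε, 1+ε]`; moreover the factors of the product `arith c` are `1 + O(p^(-2))`, uniformly in `c`. -/
theorem result (n : ℕ) :
    (∃ C : ℝ, ∀ c : Fin n → ℝ, ∀ p : ℕ, p.Prime → |loc c p * inv c p - 1| ≤ C / (p:ℝ) ^ 2) ∧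
    ∀ ε : ℝ, 0 < ε → ∀ᶠ T : ℝ in atTop,
      volume {c : Fin n → ℝ | (∀ j, 0 ≤ c j ∧ c j ≤ T) ∧
        ¬ |moment T c / (1 / 12 * zetas c * arith c * (T * Real.log T ^ (n + 4))) - 1| ≤ ε} ≤
          ENNReal.ofReal (ε * T ^ n) := by
  obtain ⟨h1, h2⟩ := Pool.Agent.Y969.SM.res_gen Pool.Agent.Helper25.ZM.xMAIN Pool.Agent.Helper25.ZM.xREL
    Pool.Agent.Helper25.ZM.xAA n
  refine ⟨h1, fun ε hε => ?_⟩
  obtain ⟨T₀, h3⟩ := h2 ε hε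
  filter_upwards [eventually_ge_atTop T₀] with T hT
  have h4 := (h3 T hT).2.2
  have e : ∀ c : Fin n → ℝ, 1 / 12 * zetas c * arith c * (T * Real.log T ^ (n + 4)) =
      1 / 12 * Pool.Agent.Y969.SM.AA c * Pool.Agent.Y969.SM.zp c * (T * Real.log T ^ (n + 4)) := by
    intro c
    have e1 : zetas c = Pool.Agent.Y969.SM.zp c := rfl
    have e2 : arith c = Pool.Agent.Y969.SM.AA c := rfl
    rw [e1, e2]
    ring
  simp only [e]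
  exact h4

end

end Pool.Agent.Results.MP_56b8f5_nt.FourthPowerShifts
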