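import Pool.Agent.Helper30K1.GD.ALL

set_option autoImplicit false

/-!
# The eighth moment of the Riemann zeta function with fixed generic dilations

There is `δ > 0` such that for every `k ≥ 1` and every measurable weight `F` with
`∫_0^T |F|² ≤ T^(1+o(1))` the asymptotic formula

`∫_0^T F(t) ∏_{j ≤ k} |ζ(1/2 + i λ_j t)|² dt = ∫_0^T F(t) ∏_{j ≤ k} (log (λ_j t / 2π) + 2γ) dt + O(T^(1-δ))`

holds for all `T ≥ 1`, for all positive `λ = (λ_1, ..., λ_k)` outside a set of Hausdorff dimension at most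
`s(k) < k`; in particular for almost all `λ`. With `F = 1` and `k = 4`, or with `F(t) = |ζ(1/2+it)|²` and `k = 3`
(`eighth` and `eighth'` below), this is an asymptotic formula with a power saving for a moment of zeta of
order eight. `F` may also be the indicator function of any measurable set of `t`, for example of the set where
`ζ(1/2+it)` is large: for generic dilations the product does not see this set.

Proof: the Mellin transform of `|ζ(1/2+iu)|²` minus its mean density `log (u / 2π) + 2γ`, with a smooth weight at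
scale `T`, is `O(T^(-δ))` uniformly in the frequency (approximate functional equation and van der Corput's method
for the phases `ω log log (1 + t / m)`); by Plancherel's theorem in the dilation one factor can be exchanged for its
density in mean square over `λ_j`, and the fourth moment of zeta controls the other factors; the exceptional set
is covered by balls. The starting project `Pool.Agent.N879.GD` contains the plan (the statements `S_*`) and two of
the parts; the others are proved in `Pool.Agent.Helper30K1.GD` by helpers 4, 7, 13, 20, 25, 30, 32, 39, 40, 44, 50,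
56, 62, 83, 87, 88, 92, 93.
-/

namespace Pool.Agent.Results.MP_56b8f5_nt.GenericDilations

open MeasureTheory Set

/-- `F` is measurable and its mean square over `(0, T]` is at most `T^(1+o(1))`. -/
def Moderate (F : ℝ → ℂ) : Prop := Measurable F ∧ ∀ ε : ℝ, 0 < ε → ∃ C : ℝ, 0 < C ∧ ∀ T : ℝ, 1 ≤ T →
  ∫⁻ t in Ioc 0 T, ‖F t‖ₑ ^ 2 ≤ ENNReal.ofReal (C * T ^ (1 + ε))

/-- the mean density of `|ζ(1/2+iu)|²` -/
noncomputable def density (u : ℝ) : ℝ := Real.log (u / (2 * Real.pi)) + 2 * Real.eulerMascheroniConstant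

/-- `|ζ(1/2+iu)|²` -/
noncomputable def zetaSq (u : ℝ) : ℝ := ‖riemannZeta (1 / 2 + Complex.I * u)‖ ^ 2

open Pool.Agent.Helper30K1.GD Pool.Agent.N879.GD in
/-- **Moments of zeta with generic dilations.** -/
theorem result : ∃ δ : ℝ, 0 < δ ∧ δ < 1 ∧ ∀ k : ℕ, 0 < k → ∃ s : ℝ, 0 < s ∧ s < k ∧
    ∀ F : ℝ → ℂ, Moderate F → ∃ E : Set (Fin k → ℝ), dimH E ≤ ENNReal.ofReal s ∧
    ∀ l : Fin k → ℝ, l ∉ E → (∀ j, 0 < l j) → ∃ C : ℝ, ∀ T : ℝ, 1 ≤ T →
      ‖(∫ t in (0 : ℝ)..T, F t * ((∏ j, zetaSq (l j * t) : ℝ) : ℂ)) -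
        ∫ t in (0 : ℝ)..T, F t * ((∏ j, density (l j * t) : ℝ) : ℂ)‖ ≤ C * T ^ (1 - δ) := by
  have hsum : S_SUM := t_SUM (t_BA t_GK) (t_BB t_GF t_GAM t_LL)
  have hlem : S_LEM := t_LEM (t_OFI t_GF hsum) t_DIA aAFE
  exact t_FIN (t_DIL1 (t_LEW hlem) t_PL) t_DILK t_COV t_INT t_MB t_LIP (t_DET t_INT)

theorem moderate_one : Moderate fun _ => 1 := by
  refine ⟨measurable_const, fun ε hε => ⟨1, one_pos, fun T hT => ?_⟩⟩
  have h0 : 0 ≤ T := by linarith
  have h1 : T ≤ T ^ (1 + ε) := by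
    calc T = T ^ (1 : ℝ) := (Real.rpow_one T).symm
      _ ≤ _ := Real.rpow_le_rpow_of_exponent_le hT (by linarith)
  simp only [enorm_one, one_pow, lintegral_one, Measure.restrict_apply_univ, Real.volume_Ioc, sub_zero,
    one_mul]
  exact ENNReal.ofReal_le_ofReal h1

open Pool.Agent.Helper30K1.GD Pool.Agent.N879.GD in
theorem moderate_zeta : Moderate fun t => ((zetaSq t : ℝ) : ℂ) := by
  obtain ⟨-, -, -, hc, -, -⟩ := t_CRU
  have hc' : Continuous zetaSq := hc
  refine ⟨(Complex.measurable_ofReal.comp hc'.measurable), fun ε hε => ?_⟩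
  obtain ⟨C, hC, h⟩ := t_M4' ε hε
  refine ⟨C, hC, fun T hT => ?_⟩
  have h0 : 0 ≤ T := by linarith
  have hi : IntegrableOn (fun t => zetaSq t ^ 2) (Ioc 0 T) :=
    ((hc'.pow 2).continuousOn.integrableOn_Icc (a := 0) (b := T)).mono_set Ioc_subset_Icc_self
  have e : ∫⁻ t in Ioc 0 T, ‖((zetaSq t : ℝ) : ℂ)‖ₑ ^ 2 = ENNReal.ofReal (∫ t in Ioc 0 T, zetaSq t ^ 2) := by
    rw [ofReal_integral_eq_lintegral_ofReal hi (Filter.Eventually.of_forall fun t => by positivity)]
    congr 1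
    funext t
    have hz : 0 ≤ zetaSq t := by unfold zetaSq; positivity
    rw [← ofReal_norm_eq_enorm, Complex.norm_real, Real.norm_eq_abs, abs_of_nonneg hz,
      ENNReal.ofReal_pow hz]
  rw [e]
  refine ENNReal.ofReal_le_ofReal ?_
  have := h T hT
  rw [intervalIntegral.integral_of_le h0] at this
  exact this

/-- the eighth moment with four dilations -/
theorem eighth : ∃ δ : ℝ, 0 < δ ∧ ∃ E : Set (Fin 4 → ℝ), dimH E < 4 ∧
    ∀ l : Fin 4 → ℝ, l ∉ E → (∀ j, 0 < l j) → ∃ C : ℝ, ∀ T : ℝ, 1 ≤ T →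
      |(∫ t in (0 : ℝ)..T, ∏ j, zetaSq (l j * t)) - ∫ t in (0 : ℝ)..T, ∏ j, density (l j * t)| ≤
        C * T ^ (1 - δ) := by
  obtain ⟨δ, h0, h1, h⟩ := result
  obtain ⟨s, hs0, hs, hF⟩ := h 4 (by norm_num)
  obtain ⟨E, hE, hl⟩ := hF _ moderate_one
  refine ⟨δ, h0, E, lt_of_le_of_lt hE ?_, fun l hlE hl0 => ?_⟩
  · have : ENNReal.ofReal s < ENNReal.ofReal 4 := (ENNReal.ofReal_lt_ofReal_iff (by norm_num)).2 (by exact_mod_cast hs)
    simpa using this
  · obtain ⟨C, hC⟩ := hl l hlE hl0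
    refine ⟨C, fun T hT => le_trans (le_of_eq ?_) (hC T hT)⟩
    simp only [one_mul]
    rw [intervalIntegral.integral_ofReal, intervalIntegral.integral_ofReal, ← Complex.ofReal_sub,
      Complex.norm_real, Real.norm_eq_abs]

/-- the eighth moment with one undilated factor and three dilations -/
theorem eighth' : ∃ δ : ℝ, 0 < δ ∧ ∃ E : Set (Fin 3 → ℝ), dimH E < 3 ∧
    ∀ l : Fin 3 → ℝ, l ∉ E → (∀ j, 0 < l j) → ∃ C : ℝ, ∀ T : ℝ, 1 ≤ T →
      |(∫ t in (0 : ℝ)..T, zetaSq t * ∏ j, zetaSq (l j * t)) -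
        ∫ t in (0 : ℝ)..T, zetaSq t * ∏ j, density (l j * t)| ≤ C * T ^ (1 - δ) := by
  obtain ⟨δ, h0, h1, h⟩ := result
  obtain ⟨s, hs0, hs, hF⟩ := h 3 (by norm_num)
  obtain ⟨E, hE, hl⟩ := hF _ moderate_zeta
  refine ⟨δ, h0, E, lt_of_le_of_lt hE ?_, fun l hlE hl0 => ?_⟩
  · have : ENNReal.ofReal s < ENNReal.ofReal 3 := (ENNReal.ofReal_lt_ofReal_iff (by norm_num)).2 (by exact_mod_cast hs)
    simpa using this
  · obtain ⟨C, hC⟩ := hl l hlE hl0
    refine ⟨C, fun T hT => le_trans (le_of_eq ?_) (hC T hT)⟩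
    simp only [← Complex.ofReal_mul]
    rw [intervalIntegral.integral_ofReal, intervalIntegral.integral_ofReal, ← Complex.ofReal_sub,
      Complex.norm_real, Real.norm_eq_abs]

end Pool.Agent.Results.MP_56b8f5_nt.GenericDilations
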