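import Pool.Agent.Helper25.ZM.PZAll

set_option autoImplicit false

/-! Moments of zeta with shifts of the size of a power of `log T` (the eighth moment for three shifts). -/

namespace Pool.Agent.Results.MP_56b8f5_nt.PolylogShifts

open Complex MeasureTheory Set Filter

noncomputable section

/-- the regular points: `∫_t^(t+U) |ζ(1/2+iu)|⁴ du ≤ U W` -/
def Reg (U W : ℝ) : Set ℝ := {t | ∫ u in t..(t + U), ‖riemannZeta (1 / 2 + I * u)‖ ^ 4 ≤ U * W}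

/-- `∫ |ζ(1/2+it)|² ∏_j |ζ(1/2+i(t+c_j))|² dt` over the points of `[0,T]` in `Reg U W` -/
def moment {n : ℕ} (T U W : ℝ) (c : Fin n → ℝ) : ℝ :=
  ∫ t in Reg U W ∩ Icc 0 T, ‖riemannZeta (1 / 2 + I * t)‖ ^ 2 *
    ∏ j, ‖riemannZeta (1 / 2 + I * (t + c j))‖ ^ 2

/-- the local factor
`(1 - 1/p)^(n+1) ∫_0^1 |1 - e(θ) p^(-1/2)|^(-2) ∏_j |1 - e(θ) p^(-1/2-i c_j)|^(-2) dθ` -/
def loc {n : ℕ} (c : Fin n → ℝ) (p : ℕ) : ℝ :=
  (1 - 1 / (p : ℝ)) ^ (n + 1) * ∫ θ in (0:ℝ)..1,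
    1 / (‖1 - cexp (2 * Real.pi * I * θ) * (p : ℂ) ^ (-(1 / 2) : ℂ)‖ ^ 2 *
      ∏ j, ‖1 - cexp (2 * Real.pi * I * θ) * (p : ℂ) ^ (-(1 / 2 + I * c j))‖ ^ 2)

/-- `∏_j |ζ(1+i c_j)|² ∏_{i<j} |ζ(1+i(c_i-c_j))|²` -/
def zetas {n : ℕ} (c : Fin n → ℝ) : ℝ :=
  (∏ j, ‖riemannZeta (1 + I * c j)‖ ^ 2) *
    ∏ i, ∏ j ∈ Finset.Ioi i, ‖riemannZeta (1 + I * (c i - c j))‖ ^ 2

/-- the inverse of the Euler factor of `zetas c` at `p` -/
def inv {n : ℕ} (c : Fin n → ℝ) (p : ℕ) : ℝ :=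
  (∏ j, ‖1 - (p : ℂ) ^ (-(1 + I * c j))‖ ^ 2) *
    ∏ i, ∏ j ∈ Finset.Ioi i, ‖1 - (p : ℂ) ^ (-(1 + I * (c i - c j)))‖ ^ 2

/-- the arithmetic factor `∏_p loc c p * inv c p` -/
def arith {n : ℕ} (c : Fin n → ℝ) : ℝ := ∏' p : Nat.Primes, loc c p * inv c p

/-- For all `n` and `B` there are `C₀` and `B₀` such that for every `ε > 0` and all sufficiently large `T` the following
holds for `(log T)^C₀ ≤ U ≤ T^(1/4)`: all points of `[0,T]` outside a set of measure at most `T/(log T)^B` belong to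
`Reg U ((log T)^B₀)`, and for all `c ∈ [0,U]^n` outside a set of measure at most `ε U^n` the moment
`∫ |ζ(1/2+it)|² ∏_j |ζ(1/2+i(t+c_j))|² dt` over these points is `zetas c * arith c * T (log T)^(n+1)` up to a factor in
`[1-ε, 1+ε]`. -/
theorem result (n B : ℕ) : ∃ C₀ B₀ : ℕ, ∀ ε : ℝ, 0 < ε → ∀ᶠ T : ℝ in atTop, ∀ U : ℝ,
    Real.log T ^ C₀ ≤ U → U ≤ T ^ (1 / 4 : ℝ) →
    volume (Icc 0 T \ Reg U (Real.log T ^ B₀)) ≤ ENNReal.ofReal (T / Real.log T ^ B) ∧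
    volume {c : Fin n → ℝ | (∀ j, 0 ≤ c j ∧ c j ≤ U) ∧
      ¬ |moment T U (Real.log T ^ B₀) c / (zetas c * arith c * (T * Real.log T ^ (n + 1))) - 1| ≤ ε} ≤
        ENNReal.ofReal (ε * U ^ n) := by
  have e1 : ∀ U W : ℝ, Pool.Agent.N879.PZ.Gs U W = Reg U W := by
    intro U W
    unfold Pool.Agent.N879.PZ.Gs Reg Pool.Agent.Y969.GP.ff
    simp only [← pow_mul]
  have e2 : ∀ (T U W : ℝ) (c : Fin n → ℝ), Pool.Agent.N879.PZ.MG T U W c = moment T U W c := by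
    intro T U W c
    unfold Pool.Agent.N879.PZ.MG moment Pool.Agent.Y969.GP.ff
    rw [e1]
    push_cast
    rfl
  have h := Pool.Agent.Helper25.ZM.pz_main n B
  simp only [e1, e2] at h
  exact h

end

end Pool.Agent.Results.MP_56b8f5_nt.PolylogShifts
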